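import Pool.Agent.Helper892.ER.Abs

/-!
Values of forms, and sums over places for tuples of units.
-/

set_option autoImplicit false

open IsDedekindDomain NumberField

namespace Pool.Agent.Helper892.SE

open Pool.Agent.Helper892.ER

variable {k : Type} [Field k] [NumberField k] {n : ℕ}

lemma bdd (v : AbsoluteValue k ℝ) (x : Fin (n + 1) → k) :
    BddAbove (Set.range fun i => v (x i)) := (Set.finite_range _).bddAbove

lemma le_sup (v : AbsoluteValue k ℝ) (x : Fin (n + 1) → k) (i : Fin (n + 1)) :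
    v (x i) ≤ ⨆ i, v (x i) := le_ciSup (f := fun i => v (x i)) (bdd v x) i

/-- an upper bound for the value of a form -/
lemma form_le (v : AbsoluteValue k ℝ) {d : ℕ} (F : MvPolynomial (Fin (n + 1)) k)
    (hF : F.IsHomogeneous d) : ∃ C : ℝ, 0 < C ∧ ∀ x : Fin (n + 1) → k,
      v (MvPolynomial.eval x F) ≤ C * (⨆ i, v (x i)) ^ d := by
  refine ⟨1 + ∑ s ∈ F.support, v (F.coeff s), ?_, fun x => ?_⟩
  · have : 0 ≤ ∑ s ∈ F.support, v (F.coeff s) := Finset.sum_nonneg fun _ _ => apply_nonneg v _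
    linarith
  have hM : 0 ≤ ⨆ i, v (x i) := (apply_nonneg v (x 0)).trans (le_sup v x 0)
  have h1 : v (MvPolynomial.eval x F) ≤ ∑ s ∈ F.support, v (F.coeff s) * (⨆ i, v (x i)) ^ d := by
    rw [MvPolynomial.eval_eq']
    refine (v.sum_le _ _).trans (Finset.sum_le_sum fun s hs => ?_)
    rw [map_mul, map_prod]
    refine mul_le_mul_of_nonneg_left ?_ (apply_nonneg v _)
    have hdeg : ∑ i, s i = d := by
      have := hF (MvPolynomial.mem_support_iff.1 hs)
      rw [← this, Finsupp.weight_apply, Finsupp.sum_fintype]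
      · simp
      · simp
    calc ∏ i, v (x i ^ s i) ≤ ∏ i, (⨆ i, v (x i)) ^ s i := by
          refine Finset.prod_le_prod (fun i _ => apply_nonneg v _) fun i _ => ?_
          rw [map_pow]
          exact pow_le_pow_left₀ (apply_nonneg v _) (le_sup v x i) _
      _ = (⨆ i, v (x i)) ^ d := by rw [Finset.prod_pow_eq_pow_sum, hdeg]
  refine h1.trans ?_
  rw [← Finset.sum_mul]
  refine mul_le_mul_of_nonneg_right ?_ (pow_nonneg hM d)
  linarith

/-- the ideal of the point `(1 : … : 1)` -/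
noncomputable def idl (k : Type) [Field k] (n : ℕ) : Ideal (MvPolynomial (Fin (n + 1)) k) :=
  Ideal.span (Set.range fun i : Fin (n + 1) => MvPolynomial.X i - MvPolynomial.X 0)

/-- a bound at a prime for a polynomial at an integral point -/
lemma eval_le (p : HeightOneSpectrum (𝓞 k)) (F : MvPolynomial (Fin (n + 1)) k) :
    ∃ C : ℝ, 0 < C ∧ ∀ x : Fin (n + 1) → k, (∀ i, av p (x i) ≤ 1) →
      av p (MvPolynomial.eval x F) ≤ C := by
  refine ⟨1 + ∑ s ∈ F.support, av p (F.coeff s), ?_, fun x hx => ?_⟩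
  · have : 0 ≤ ∑ s ∈ F.support, av p (F.coeff s) :=
      Finset.sum_nonneg fun _ _ => apply_nonneg _ _
    linarith
  rw [MvPolynomial.eval_eq]
  refine ((av p).sum_le _ _).trans ?_
  refine (Finset.sum_le_sum (g := fun s => av p (F.coeff s)) fun s hs => ?_).trans (by linarith)
  rw [map_mul, map_prod]
  refine mul_le_of_le_one_right (apply_nonneg _ _) ?_
  refine Finset.prod_le_one (fun i _ => apply_nonneg _ _) fun i _ => ?_
  rw [map_pow]
  exact pow_le_one₀ (apply_nonneg _ _) (hx i)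

/-- values of polynomials which vanish at the point `(1 : … : 1)` at points close to it -/
lemma eval_pow_le (p : HeightOneSpectrum (𝓞 k)) (μ : ℕ) (F : MvPolynomial (Fin (n + 1)) k)
    (hF : F ∈ idl k n ^ μ) :
    ∃ C : ℝ, 0 < C ∧ ∀ (x : Fin (n + 1) → k) (δ : ℝ), 0 ≤ δ → (∀ i, av p (x i) ≤ 1) →
      (∀ i, av p (x i - x 0) ≤ δ) → av p (MvPolynomial.eval x F) ≤ C * δ ^ μ := by
  have key : ∀ G ∈ idl k n, ∃ C : ℝ, 0 < C ∧ ∀ (x : Fin (n + 1) → k) (δ : ℝ), 0 ≤ δ →
      (∀ i, av p (x i) ≤ 1) → (∀ i, av p (x i - x 0) ≤ δ) →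
      av p (MvPolynomial.eval x G) ≤ C * δ := by
    intro G hG
    refine Submodule.span_induction ?_ ?_ ?_ ?_ hG
    · rintro _ ⟨i, rfl⟩
      refine ⟨1, one_pos, fun x δ hδ hx hxδ => ?_⟩
      simpa using hxδ i
    · refine ⟨1, one_pos, fun x δ hδ hx hxδ => ?_⟩
      simpa using hδ
    · rintro a b - - ⟨C1, hC1, h1⟩ ⟨C2, hC2, h2⟩
      refine ⟨C1 + C2, by positivity, fun x δ hδ hx hxδ => ?_⟩
      rw [map_add, add_mul]
      exact ((av p).add_le _ _).trans (add_le_add (h1 x δ hδ hx hxδ) (h2 x δ hδ hx hxδ))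
    · rintro a b - ⟨C1, hC1, h1⟩
      obtain ⟨C2, hC2, h2⟩ := eval_le p a
      refine ⟨C2 * C1, by positivity, fun x δ hδ hx hxδ => ?_⟩
      rw [smul_eq_mul, map_mul, map_mul, mul_assoc]
      exact mul_le_mul (h2 x hx) (h1 x δ hδ hx hxδ) (apply_nonneg _ _) hC2.le
  induction μ generalizing F with
  | zero =>
    obtain ⟨C, hC, h⟩ := eval_le p F
    refine ⟨C, hC, fun x δ hδ hx hxδ => ?_⟩
    simpa using h x hx
  | succ μ ih =>
    rw [pow_succ] at hF
    refine Submodule.mul_induction_on hF ?_ ?_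
    · intro a ha b hb
      obtain ⟨C1, hC1, h1⟩ := ih a ha
      obtain ⟨C2, hC2, h2⟩ := key b hb
      refine ⟨C1 * C2, by positivity, fun x δ hδ hx hxδ => ?_⟩
      rw [map_mul, map_mul, pow_succ]
      calc av p (MvPolynomial.eval x a) * av p (MvPolynomial.eval x b) ≤
          (C1 * δ ^ μ) * (C2 * δ) :=
            mul_le_mul (h1 x δ hδ hx hxδ) (h2 x δ hδ hx hxδ) (apply_nonneg _ _) (by positivity)
        _ = C1 * C2 * (δ ^ μ * δ) := by ring
    · rintro a b ⟨C1, hC1, h1⟩ ⟨C2, hC2, h2⟩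
      refine ⟨C1 + C2, by positivity, fun x δ hδ hx hxδ => ?_⟩
      rw [map_add, add_mul]
      exact ((av p).add_le _ _).trans (add_le_add (h1 x δ hδ hx hxδ) (h2 x δ hδ hx hxδ))

/-- the sum over the places in `S` -/
noncomputable def SS (S : Finset (HeightOneSpectrum (𝓞 k))) (φ : AbsoluteValue k ℝ → ℝ) : ℝ :=
  ∑ v : InfinitePlace k, (v.mult : ℝ) * φ v.1 + ∑ q ∈ S, φ (av q)

lemma SS_add (S : Finset (HeightOneSpectrum (𝓞 k))) (φ ψ : AbsoluteValue k ℝ → ℝ) :
    SS S (fun v => φ v + ψ v) = SS S φ + SS S ψ := by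
  unfold SS
  simp only [mul_add, Finset.sum_add_distrib]
  ring

lemma SS_sub (S : Finset (HeightOneSpectrum (𝓞 k))) (φ ψ : AbsoluteValue k ℝ → ℝ) :
    SS S (fun v => φ v - ψ v) = SS S φ - SS S ψ := by
  unfold SS
  simp only [mul_sub, Finset.sum_sub_distrib]
  ring

lemma SS_mul (S : Finset (HeightOneSpectrum (𝓞 k))) (c : ℝ) (φ : AbsoluteValue k ℝ → ℝ) :
    SS S (fun v => c * φ v) = c * SS S φ := by
  unfold SS
  rw [mul_add, Finset.mul_sum, Finset.mul_sum]
  congr 1
  exact Finset.sum_congr rfl fun v _ => by ring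

lemma SS_sum {ι : Type} (s : Finset ι) (S : Finset (HeightOneSpectrum (𝓞 k)))
    (φ : ι → AbsoluteValue k ℝ → ℝ) :
    SS S (fun v => ∑ i ∈ s, φ i v) = ∑ i ∈ s, SS S (φ i) := by
  classical
  induction s using Finset.induction_on with
  | empty => simp [SS]
  | insert a s ha ih =>
    simp only [Finset.sum_insert ha]
    rw [SS_add, ih]

lemma SS_le (S : Finset (HeightOneSpectrum (𝓞 k))) {φ ψ : AbsoluteValue k ℝ → ℝ}
    (h : ∀ v, φ v ≤ ψ v) : SS S φ ≤ SS S ψ := by
  unfold SS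
  refine add_le_add (Finset.sum_le_sum fun v _ => ?_) (Finset.sum_le_sum fun v _ => h _)
  exact mul_le_mul_of_nonneg_left (h _) (Nat.cast_nonneg _)

lemma finprod_finitePlace (S : Finset (HeightOneSpectrum (𝓞 k))) (f : FinitePlace k → ℝ)
    (hf : ∀ q, q ∉ S → f (FinitePlace.mk q) = 1) :
    ∏ᶠ v : FinitePlace k, f v = ∏ q ∈ S, f (FinitePlace.mk q) := by
  classical
  have h1 : ∏ᶠ v : FinitePlace k, f v = ∏ᶠ q : HeightOneSpectrum (𝓞 k), f (FinitePlace.mk q) := by
    rw [← finprod_comp_equiv FinitePlace.equivHeightOneSpectrum.symm]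
    rfl
  rw [h1]
  refine finprod_eq_prod_of_mulSupport_subset _ fun q hq => ?_
  by_contra hqS
  exact hq (hf q hqS)

lemma mk_eq_av (p : HeightOneSpectrum (𝓞 k)) (x : k) : FinitePlace.mk p x = av p x :=
  (FinitePlace.norm_embedding' (v := p) (x := x))

/-- the product formula -/
lemma prod_formula (S : Finset (HeightOneSpectrum (𝓞 k))) (x : k) (hx : x ≠ 0)
    (hS : ∀ q, q ∉ S → av q x = 1) : SS S (fun v => Real.log (v x)) = 0 := by
  have h := prod_abs_eq_one (K := k) hx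
  rw [finprod_finitePlace S (fun v => v x) (fun q hq => (mk_eq_av q x).trans (hS q hq))] at h
  have h2 := congrArg Real.log h
  rw [Real.log_one, Real.log_mul, Real.log_prod, Real.log_prod] at h2
  · unfold SS
    rw [← h2]
    congr 1
    · refine Finset.sum_congr rfl fun v _ => ?_
      rw [Real.log_pow]
      rfl
    · refine Finset.sum_congr rfl fun q _ => ?_
      rw [mk_eq_av]
  · intro q _
    rw [mk_eq_av]
    exact ((av q).pos hx).ne'
  · intro v _
    exact (pow_pos (InfinitePlace.pos_iff.mpr hx) _).ne'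
  · exact (Finset.prod_pos fun v _ => pow_pos (InfinitePlace.pos_iff.mpr hx) _).ne'
  · exact (Finset.prod_pos fun q _ => by rw [mk_eq_av]; exact (av q).pos hx).ne'

/-- the height of a tuple of units -/
lemma logHeight_units (S : Finset (HeightOneSpectrum (𝓞 k))) (x : Fin (n + 1) → k)
    (hx : ∀ i, x i ≠ 0) (hS : ∀ q, q ∉ S → ∀ i, av q (x i) = 1) :
    Height.logHeight x = SS S (fun v => Real.log (⨆ i, v (x i))) := by
  have hx0 : x ≠ 0 := fun h => hx 0 (congrFun h 0)
  have hsup : ∀ v : AbsoluteValue k ℝ, 0 < ⨆ i, v (x i) := fun v =>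
    (v.pos (hx 0)).trans_le (le_sup v x 0)
  have e1 : ∀ q : HeightOneSpectrum (𝓞 k),
      (⨆ i, (FinitePlace.mk q) (x i)) = ⨆ i, av q (x i) := fun q =>
    iSup_congr fun i => mk_eq_av q (x i)
  rw [Height.logHeight_eq_log_mulHeight, NumberField.mulHeight_eq hx0,
    finprod_finitePlace S (fun v => ⨆ i, v (x i)), Real.log_mul, Real.log_prod, Real.log_prod]
  · unfold SS
    congr 1
    · refine Finset.sum_congr rfl fun v _ => ?_
      rw [Real.log_pow]
      rfl
    · refine Finset.sum_congr rfl fun q _ => ?_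
      rw [e1]
  · intro q _
    rw [e1]
    exact (hsup _).ne'
  · intro v _
    exact (pow_pos (hsup v.1) _).ne'
  · exact (Finset.prod_pos fun v _ => pow_pos (hsup v.1) _).ne'
  · refine (Finset.prod_pos fun q _ => ?_).ne'
    rw [e1]
    exact hsup _
  · intro q hq
    rw [e1]
    simp [hS q hq]

end Pool.Agent.Helper892.SE
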