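import Pool.Agent.Helper892.ER.Abs

/-!
Multiplicatively independent elements which are units outside a finite set of primes, and congruent
products of powers of them.
-/

set_option autoImplicit false

open IsDedekindDomain NumberField

namespace Pool.Agent.Helper892.SE

open Pool.Agent.Helper892.ER

variable {k : Type} [Field k] [NumberField k]

/-- a power of a prime is principal -/
lemma exists_gen (p : HeightOneSpectrum (𝓞 k)) : ∃ (n : ℕ) (π : 𝓞 k), 1 ≤ n ∧ π ≠ 0 ∧
    p.asIdeal ^ n = Ideal.span {π} := by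
  classical
  have hmem : p.asIdeal ∈ nonZeroDivisors (Ideal (𝓞 k)) := mem_nonZeroDivisors_of_ne_zero p.ne_bot
  have h1 : ClassGroup.mk0 (⟨p.asIdeal, hmem⟩ ^ (Fintype.card (ClassGroup (𝓞 k)))) = 1 := by
    rw [map_pow, pow_card_eq_one]
  have hmem2 : p.asIdeal ^ Fintype.card (ClassGroup (𝓞 k)) ∈ nonZeroDivisors (Ideal (𝓞 k)) :=
    pow_mem hmem _
  have h2 : (p.asIdeal ^ Fintype.card (ClassGroup (𝓞 k))).IsPrincipal := by
    rw [← ClassGroup.mk0_eq_one_iff hmem2, ← h1]
    rfl
  obtain ⟨π, hπ⟩ := h2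
  refine ⟨Fintype.card (ClassGroup (𝓞 k)), π, Fintype.card_pos, ?_, hπ⟩
  rintro rfl
  rw [Submodule.span_zero_singleton] at hπ
  exact pow_ne_zero _ p.ne_bot hπ

lemma av_eq_one_iff (q : HeightOneSpectrum (𝓞 k)) (x : 𝓞 k) :
    av q (x : k) = 1 ↔ x ∉ q.asIdeal := by
  rw [← av_lt_one_iff q x, not_lt]
  exact ⟨fun h => h.ge, fun h => le_antisymm (av_int q x) h⟩

/-- independent elements -/
theorem exists_indep (S : Finset (HeightOneSpectrum (𝓞 k))) :
    ∃ g : (Fin (Units.rank k) ⊕ S) → 𝓞 k, (∀ i, g i ≠ 0) ∧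
      (∀ i, ∀ q : HeightOneSpectrum (𝓞 k), q ∉ S → g i ∉ q.asIdeal) ∧
      Function.Injective (fun e : (Fin (Units.rank k) ⊕ S) → ℕ => ∏ i, g i ^ e i) := by
  classical
  choose n π hn hπ0 hπ using fun q : S => exists_gen (k := k) q.1
  let u : Fin (Units.rank k) → 𝓞 k := fun i => (Units.fundSystem k i : 𝓞 k)
  have hunit : ∀ i, ∀ q : HeightOneSpectrum (𝓞 k), u i ∉ q.asIdeal := by
    intro i q hq
    exact q.isPrime.ne_top (Ideal.eq_top_of_isUnit_mem _ hq (Units.isUnit _))
  have hπq : ∀ q : S, ∀ q' : HeightOneSpectrum (𝓞 k), π q ∈ q'.asIdeal → q' = q.1 := by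
    intro q q' h
    have h1 : q.1.asIdeal ^ n q ≤ q'.asIdeal := by
      rw [hπ q, Ideal.span_singleton_le_iff_mem]
      exact h
    have h2 : q.1.asIdeal ≤ q'.asIdeal := Ideal.IsPrime.le_of_pow_le (hP := q'.isPrime) h1
    have h3 : q.1.asIdeal = q'.asIdeal := (q.1.isMaximal.eq_of_le q'.isPrime.ne_top h2)
    exact (HeightOneSpectrum.ext h3).symm
  have hπmem : ∀ q : S, π q ∈ q.1.asIdeal := by
    intro q
    have h1 : π q ∈ q.1.asIdeal ^ n q := by
      rw [hπ q]
      exact Ideal.mem_span_singleton_self _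
    exact Ideal.pow_le_self (by have := hn q; omega) h1
  refine ⟨Sum.elim u π, ?_, ?_, ?_⟩
  · rintro (i | q)
    · exact Units.ne_zero _
    · exact hπ0 q
  · rintro (i | q) q' hq'
    · exact hunit i q'
    · intro h
      exact hq' (hπq q q' h ▸ q.2)
  · intro e e' hee
    simp only at hee
    rw [Fintype.prod_sum_type, Fintype.prod_sum_type] at hee
    simp only [Sum.elim_inl, Sum.elim_inr] at hee
    -- the exponents of the primes
    have hav : ∀ (q : S) (f : (Fin (Units.rank k) ⊕ S) → ℕ),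
        av q.1 (((∏ i, u i ^ f (Sum.inl i)) * ∏ q', π q' ^ f (Sum.inr q') : 𝓞 k) : k) =
          av q.1 (π q : k) ^ f (Sum.inr q) := by
      intro q f
      have e1 : (((∏ i, u i ^ f (Sum.inl i)) * ∏ q', π q' ^ f (Sum.inr q') : 𝓞 k) : k) =
          (∏ i, (u i : k) ^ f (Sum.inl i)) * ∏ q', (π q' : k) ^ f (Sum.inr q') := by
        change algebraMap (𝓞 k) k _ = _
        simp only [map_mul, map_prod, map_pow]
      rw [e1, map_mul, map_prod, map_prod]
      simp only [map_pow]
      have e2 : ∏ i, av q.1 (u i : k) ^ f (Sum.inl i) = 1 := by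
        refine Finset.prod_eq_one fun i _ => ?_
        rw [(av_eq_one_iff q.1 (u i)).2 (hunit i q.1), one_pow]
      rw [e2, one_mul, Finset.prod_eq_single q]
      · intro q' _ hne
        rw [(av_eq_one_iff q.1 (π q')).2 (fun h => hne (Subtype.ext (hπq q' q.1 h)).symm), one_pow]
      · intro h
        exact absurd (Finset.mem_univ _) h
    have hr : ∀ q : S, e (Sum.inr q) = e' (Sum.inr q) := by
      intro q
      have h1 := hav q e
      have h2 := hav q e'
      rw [hee, h2] at h1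
      have hlt : av q.1 (π q : k) < 1 := (av_lt_one_iff q.1 (π q)).2 (hπmem q)
      have hpos : 0 < av q.1 (π q : k) := (av q.1).pos (by
        intro h
        exact hπ0 q (RingOfIntegers.coe_eq_zero_iff.1 h))
      exact (pow_right_injective₀ hpos hlt.ne h1).symm
    have hl : ∀ i, e (Sum.inl i) = e' (Sum.inl i) := by
      have e1 : ∏ q', π q' ^ e (Sum.inr q') = ∏ q', π q' ^ e' (Sum.inr q') :=
        Finset.prod_congr rfl fun q' _ => by rw [hr q']
      have e2 : ∏ q', π q' ^ e' (Sum.inr q') ≠ 0 :=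
        Finset.prod_ne_zero_iff.2 fun q' _ => pow_ne_zero _ (hπ0 q')
      rw [e1] at hee
      have e3 := mul_right_cancel₀ e2 hee
      have e4 : (∏ i, Units.fundSystem k i ^ (e (Sum.inl i) : ℤ)) =
          ∏ i, Units.fundSystem k i ^ (e' (Sum.inl i) : ℤ) := by
        apply Units.ext
        simpa only [zpow_natCast, Units.coe_prod, Units.val_pow_eq_pow_val] using e3
      obtain ⟨x0, -, hx0⟩ := Units.exist_unique_eq_mul_prod k
        (∏ i, Units.fundSystem k i ^ (e (Sum.inl i) : ℤ))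
      have h1 := hx0 (1, fun i => (e (Sum.inl i) : ℤ)) (by simp)
      have h2 := hx0 (1, fun i => (e' (Sum.inl i) : ℤ)) (by simpa using e4)
      have h3 := congrArg Prod.snd (h1.trans h2.symm)
      intro i
      have := congrFun h3 i
      simpa using this
    funext i
    rcases i with i | q
    · exact hl i
    · exact hr q

/-- many congruent products -/
theorem exists_congr (p : HeightOneSpectrum (𝓞 k)) {ι : Type} [Fintype ι] (g : ι → 𝓞 k)
    (hg : Function.Injective (fun e : ι → ℕ => ∏ i, g i ^ e i)) (m D R : ℕ)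
    (h : qq p ^ m * D < ((R + 1 : ℕ) : ℝ) ^ Fintype.card ι) :
    ∃ W : Finset (𝓞 k), D < W.card ∧
      (∀ w ∈ W, ∃ e : ι → ℕ, (∀ i, e i ≤ R) ∧ w = ∏ i, g i ^ e i) ∧
      (∀ w ∈ W, ∀ w' ∈ W, w - w' ∈ p.asIdeal ^ m) := by
  classical
  have hfin : Finite (𝓞 k ⧸ p.asIdeal ^ m) :=
    Ideal.finiteQuotientOfFreeOfNeBot _ (pow_ne_zero m p.ne_bot)
  let _ : Fintype (𝓞 k ⧸ p.asIdeal ^ m) := Fintype.ofFinite _
  let E : Finset (ι → ℕ) := Fintype.piFinset fun _ => Finset.range (R + 1)
  have hE : E.card = (R + 1) ^ Fintype.card ι := by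
    simp [E, Fintype.card_piFinset]
  have hcard : (Finset.univ : Finset (𝓞 k ⧸ p.asIdeal ^ m)).card * D < E.card := by
    have h1 : ((Finset.univ : Finset (𝓞 k ⧸ p.asIdeal ^ m)).card : ℝ) = qq p ^ m := by
      rw [← card_class p m, Finset.card_univ, Nat.card_eq_fintype_card]
    have h2 : (((Finset.univ : Finset (𝓞 k ⧸ p.asIdeal ^ m)).card * D : ℕ) : ℝ) < (E.card : ℕ) := by
      rw [hE]
      push_cast
      rw [h1]
      exact_mod_cast h
    exact_mod_cast h2
  obtain ⟨y, -, hy⟩ := Finset.exists_lt_card_fiber_of_mul_lt_card_of_maps_to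
    (s := E) (t := Finset.univ) (f := fun e => Ideal.Quotient.mk (p.asIdeal ^ m) (∏ i, g i ^ e i))
    (fun _ _ => Finset.mem_univ _) hcard
  refine ⟨(E.filter fun e => Ideal.Quotient.mk (p.asIdeal ^ m) (∏ i, g i ^ e i) = y).image
    (fun e => ∏ i, g i ^ e i), ?_, ?_, ?_⟩
  · rwa [Finset.card_image_of_injective _ hg]
  · intro w hw
    obtain ⟨e, he, rfl⟩ := Finset.mem_image.1 hw
    refine ⟨e, fun i => ?_, rfl⟩
    have := Fintype.mem_piFinset.1 (Finset.mem_filter.1 he).1 i
    rw [Finset.mem_range] at this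
    omega
  · intro w hw w' hw'
    obtain ⟨e, he, rfl⟩ := Finset.mem_image.1 hw
    obtain ⟨e', he', rfl⟩ := Finset.mem_image.1 hw'
    rw [← Ideal.Quotient.eq, (Finset.mem_filter.1 he).2, (Finset.mem_filter.1 he').2]

end Pool.Agent.Helper892.SE
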