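import Pool.Agent.Helper892.SE.Grp
import Pool.Agent.Helper892.SE.Form

/-!
Tuples of units which are close to `(1 : … : 1)` at a prime.
-/

set_option autoImplicit false

open IsDedekindDomain NumberField

namespace Pool.Agent.Helper892.SE

open Pool.Agent.Helper892.ER

variable {k : Type} [Field k] [NumberField k] {n : ℕ}

lemma SS_nonneg (S : Finset (HeightOneSpectrum (𝓞 k))) {φ : AbsoluteValue k ℝ → ℝ}
    (h : ∀ v, 0 ≤ φ v) : 0 ≤ SS S φ := by
  unfold SS
  exact add_nonneg (Finset.sum_nonneg fun v _ => mul_nonneg (Nat.cast_nonneg _) (h _))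
    (Finset.sum_nonneg fun q _ => h _)

lemma SS_ge (S : Finset (HeightOneSpectrum (𝓞 k))) {φ : AbsoluteValue k ℝ → ℝ}
    (h : ∀ v, 0 ≤ φ v) {p : HeightOneSpectrum (𝓞 k)} (hp : p ∈ S) : φ (av p) ≤ SS S φ := by
  unfold SS
  have h1 : 0 ≤ ∑ v : InfinitePlace k, (v.mult : ℝ) * φ v.1 :=
    Finset.sum_nonneg fun v _ => mul_nonneg (Nat.cast_nonneg _) (h _)
  have h2 : φ (av p) ≤ ∑ q ∈ S, φ (av q) :=
    Finset.single_le_sum (f := fun q => φ (av q)) (fun q _ => h _) hp
  linarith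

/-- powers with bounded exponents -/
lemma log_sup_le (v : AbsoluteValue k ℝ) {ι : Type} [Fintype ι] (g : ι → 𝓞 k) (hg : ∀ i, g i ≠ 0)
    (R : ℕ) (x : Fin (n + 1) → k)
    (hx : ∀ i, ∃ e : ι → ℕ, (∀ j, e j ≤ R) ∧ x i = ((∏ j, g j ^ e j : 𝓞 k) : k)) :
    Real.log (⨆ i, v (x i)) ≤ R * ∑ j, |Real.log (v (g j : k))| := by
  have hg' : ∀ j, 0 < v (g j : k) := fun j => v.pos fun h => hg j (RingOfIntegers.coe_eq_zero_iff.1 h)
  have hle : ∀ i, v (x i) ≤ Real.exp (R * ∑ j, |Real.log (v (g j : k))|) := by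
    intro i
    obtain ⟨e, he, hxe⟩ := hx i
    have e1 : v (x i) = ∏ j, v (g j : k) ^ e j := by
      rw [hxe]
      have : ((∏ j, g j ^ e j : 𝓞 k) : k) = ∏ j, (g j : k) ^ e j := by
        change algebraMap (𝓞 k) k _ = _
        simp only [map_prod, map_pow]
      rw [this, map_prod]
      simp only [map_pow]
    rw [e1, Finset.mul_sum, Real.exp_sum]
    refine Finset.prod_le_prod (fun j _ => pow_nonneg (hg' j).le _) fun j _ => ?_
    rw [← Real.exp_log (hg' j), ← Real.exp_nat_mul, Real.log_exp]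
    apply Real.exp_le_exp.2
    calc (e j : ℝ) * Real.log (v (g j : k)) ≤ (e j : ℝ) * |Real.log (v (g j : k))| :=
          mul_le_mul_of_nonneg_left (le_abs_self _) (Nat.cast_nonneg _)
      _ ≤ (R : ℝ) * |Real.log (v (g j : k))| :=
          mul_le_mul_of_nonneg_right (by exact_mod_cast he j) (abs_nonneg _)
  have h0 : 0 < ⨆ i, v (x i) := by
    obtain ⟨e, he, hxe⟩ := hx 0
    refine (v.pos ?_).trans_le (le_sup v x 0)
    rw [hxe]
    intro h
    exact Finset.prod_ne_zero_iff.2 (fun j _ => pow_ne_zero _ (hg j))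
      (RingOfIntegers.coe_eq_zero_iff.1 h)
  rw [Real.log_le_iff_le_exp h0]
  exact ciSup_le hle

/-- the minimal number -/
lemma exists_R (r : ℕ) (hr : 1 ≤ r) (A : ℝ) (hA : 1 < A) : ∃ R : ℕ, 1 ≤ R ∧
    A ≤ ((R + 1 : ℕ) : ℝ) ^ r ∧ (R : ℝ) ^ r < A := by
  classical
  have hex : ∃ R : ℕ, A ≤ ((R + 1 : ℕ) : ℝ) ^ r := by
    obtain ⟨R, hR⟩ := exists_nat_ge A
    refine ⟨R, hR.trans ?_⟩
    have h1 : (R : ℝ) ≤ ((R + 1 : ℕ) : ℝ) := by push_cast; linarith
    have h2 : (1 : ℝ) ≤ ((R + 1 : ℕ) : ℝ) := by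
      have : (0 : ℝ) ≤ (R : ℝ) := Nat.cast_nonneg _
      push_cast
      linarith
    exact h1.trans (le_self_pow₀ h2 (by omega))
  have h0 : Nat.find hex ≠ 0 := by
    intro h
    have := Nat.find_spec hex
    rw [h] at this
    simp at this
    linarith
  obtain ⟨R, hR⟩ := Nat.exists_eq_succ_of_ne_zero h0
  refine ⟨Nat.find hex, by omega, Nat.find_spec hex, ?_⟩
  have := Nat.find_min hex (m := R) (by omega)
  rw [not_le] at this
  rw [hR]
  exact this

lemma eval_scale {d : ℕ} {F : MvPolynomial (Fin (n + 1)) k} (hFd : F.IsHomogeneous d) (c : k)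
    (x : Fin (n + 1) → k) : MvPolynomial.eval (fun i => c * x i) F =
      c ^ d * MvPolynomial.eval x F := by
  rw [MvPolynomial.eval_eq', MvPolynomial.eval_eq', Finset.mul_sum]
  refine Finset.sum_congr rfl fun s hs => ?_
  have hdeg : ∑ i, s i = d := by
    have := hFd (MvPolynomial.mem_support_iff.1 hs)
    rw [← this, Finsupp.weight_apply, Finsupp.sum_fintype]
    · simp
    · simp
  simp only [mul_pow]
  rw [Finset.prod_mul_distrib, Finset.prod_pow_eq_pow_sum, hdeg]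
  ring

/-- points of bounded height are not close -/
lemma exists_eta (p : HeightOneSpectrum (𝓞 k)) {d : ℕ} (F : MvPolynomial (Fin (n + 1)) k)
    (hFd : F.IsHomogeneous d) (B : ℝ) : ∃ η : ℝ, 0 < η ∧ ∀ x : Fin (n + 1) → k,
      (∀ i, x i ≠ 0) → av p (x 0) = 1 → MvPolynomial.eval x F ≠ 0 →
      av p (MvPolynomial.eval x F) < η → B ≤ Height.logHeight x := by
  classical
  have hfin : {y : k | Height.logHeight₁ y ≤ B}.Finite := NumberField.finite_setOfPred_logHeight₁_le k B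
  have hfin2 : {y : Fin (n + 1) → k | ∀ i, y i ∈ {y : k | Height.logHeight₁ y ≤ B}}.Finite :=
    Set.Finite.pi' fun _ => hfin
  let Y : Finset (Fin (n + 1) → k) := hfin2.toFinset.filter fun y => MvPolynomial.eval y F ≠ 0
  have hη : ∃ η : ℝ, 0 < η ∧ ∀ y ∈ Y, η ≤ av p (MvPolynomial.eval y F) := by
    by_cases hY : Y.Nonempty
    · obtain ⟨y0, hy0, hmin⟩ := Y.exists_min_image (fun y => av p (MvPolynomial.eval y F)) hY
      exact ⟨_, (av p).pos (Finset.mem_filter.1 hy0).2, hmin⟩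
    · refine ⟨1, one_pos, fun y hy => absurd ⟨y, hy⟩ hY⟩
  obtain ⟨η, hη0, hη1⟩ := hη
  refine ⟨η, hη0, fun x hx0 hx1 hxF hxη => ?_⟩
  by_contra hB
  rw [not_le] at hB
  let y : Fin (n + 1) → k := fun i => (x 0)⁻¹ * x i
  have hyF : MvPolynomial.eval y F = (x 0)⁻¹ ^ d * MvPolynomial.eval x F := by
    exact eval_scale hFd _ x
  have hyY : y ∈ Y := by
    refine Finset.mem_filter.2 ⟨?_, ?_⟩
    · rw [Set.Finite.mem_toFinset]
      intro i
      change Height.logHeight₁ ((x 0)⁻¹ * x i) ≤ B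
      rw [inv_mul_eq_div, Height.logHeight₁_div_eq_logHeight]
      refine le_trans ?_ hB.le
      have := Height.logHeight_comp_le (![i, 0] : Fin 2 → Fin (n + 1)) x
      have e : x ∘ (![i, 0] : Fin 2 → Fin (n + 1)) = ![x i, x 0] := by
        funext j
        fin_cases j <;> rfl
      rwa [e] at this
    · rw [hyF]
      exact mul_ne_zero (pow_ne_zero _ (inv_ne_zero (hx0 0))) hxF
  have h1 := hη1 y hyY
  rw [hyF, map_mul, map_pow, map_inv₀, hx1, inv_one, one_pow, one_mul] at h1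
  linarith

theorem main (μ d : ℕ) (hμ : 1 ≤ μ) (F : MvPolynomial (Fin (n + 1)) k) (hF0 : F ≠ 0)
    (hFd : F.IsHomogeneous d) (hF : F ∈ idl k n ^ μ) (S : Finset (HeightOneSpectrum (𝓞 k)))
    (p : HeightOneSpectrum (𝓞 k)) (hp : p ∈ S)
    (hS3 : 3 ≤ Fintype.card (InfinitePlace k) + S.card)
    (G : MvPolynomial (Fin (n + 1)) k) (hG : G ≠ 0) :
    ∃ C : ℝ, ∀ B : ℝ, ∃ x : Fin (n + 1) → k, (∀ i, x i ≠ 0) ∧ (∀ q, q ∉ S → ∀ i, av q (x i) = 1) ∧
      MvPolynomial.eval x F ≠ 0 ∧ MvPolynomial.eval x G ≠ 0 ∧ B ≤ Height.logHeight x ∧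
      μ * ((Fintype.card (InfinitePlace k) : ℝ) + S.card - 2) * Real.log (Height.logHeight x) - C ≤
        SS S (fun v => d * Real.log (⨆ i, v (x i)) - Real.log (v (MvPolynomial.eval x F))) := by
  classical
  obtain ⟨g, hg0, hgS, hginj⟩ := exists_indep (k := k) (S.erase p)
  set r : ℕ := Fintype.card (Fin (Units.rank k) ⊕ (S.erase p : Finset _)) with hr
  have hInf : 1 ≤ Fintype.card (InfinitePlace k) := Fintype.card_pos
  have hScard : 1 ≤ S.card := Finset.card_pos.2 ⟨p, hp⟩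
  have hr1 : r = Fintype.card (InfinitePlace k) - 1 + (S.card - 1) := by
    rw [hr, Fintype.card_sum, Fintype.card_fin, Fintype.card_coe, Finset.card_erase_of_mem hp]
    rfl
  have hr2 : 1 ≤ r := by omega
  have hr3 : (Fintype.card (InfinitePlace k) : ℝ) + S.card - 2 = r := by
    have : Fintype.card (InfinitePlace k) + S.card = r + 2 := by omega
    have h2 : ((Fintype.card (InfinitePlace k) + S.card : ℕ) : ℝ) = ((r + 2 : ℕ) : ℝ) := by
      rw [this]
    push_cast at h2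
    linarith
  rw [hr3]
  have hgp : ∀ j, av p (g j : k) = 1 := fun j =>
    (av_eq_one_iff p (g j)).2 (hgS j p (Finset.notMem_erase p S))
  have hgq : ∀ q, q ∉ S → ∀ j, av q (g j : k) = 1 := fun q hq j =>
    (av_eq_one_iff q (g j)).2 (hgS j q fun h => hq (Finset.mem_of_mem_erase h))
  set φ : AbsoluteValue k ℝ → ℝ := fun v => ∑ j, |Real.log (v (g j : k))| with hφ
  have hφ0 : ∀ v, 0 ≤ φ v := fun v => Finset.sum_nonneg fun _ _ => abs_nonneg _
  set c : ℝ := SS S φ + 1 with hc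
  have hc1 : 1 ≤ c := by
    have := SS_nonneg S hφ0
    linarith
  set D : ℕ := (F * G).totalDegree with hD
  obtain ⟨C1, hC1, hC1'⟩ := eval_pow_le p μ F hF
  choose cf hcf0 hcf using fun v : AbsoluteValue k ℝ => form_le v F hFd
  set C2 : ℝ := SS S (fun v => |Real.log (cf v)|) with hC2
  refine ⟨μ * (Real.log (D + 1) + r * Real.log c) + Real.log C1 + C2, fun B => ?_⟩
  obtain ⟨η, hη0, hη⟩ := exists_eta p F hFd (max B 1)
  have hq1 : 1 < qq p := one_lt_qq p
  have hq0 : 0 < qq p := one_pos.trans hq1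
  -- the exponent
  obtain ⟨m, hm1, hm⟩ : ∃ m : ℕ, 1 ≤ m ∧ C1 * (qq p ^ (-(m : ℤ))) ^ μ < η := by
    obtain ⟨m, hm⟩ := pow_unbounded_of_one_lt (C1 / η) hq1
    refine ⟨m + 1, by omega, ?_⟩
    have h1 : (1 : ℝ) ≤ qq p ^ (m + 1) := one_le_pow₀ hq1.le
    have h2 : (qq p ^ (-((m + 1 : ℕ) : ℤ))) ^ μ ≤ (qq p ^ (m + 1))⁻¹ := by
      rw [zpow_neg, zpow_natCast]
      exact pow_le_of_le_one (by positivity) (inv_le_one_of_one_le₀ h1) (by omega)
    have h3 : C1 / η < qq p ^ (m + 1) := by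
      refine hm.trans ?_
      exact pow_lt_pow_right₀ hq1 (by omega)
    rw [div_lt_iff₀ hη0] at h3
    calc C1 * (qq p ^ (-((m + 1 : ℕ) : ℤ))) ^ μ ≤ C1 * (qq p ^ (m + 1))⁻¹ :=
          mul_le_mul_of_nonneg_left h2 hC1.le
      _ < η := by
          rw [← div_eq_mul_inv, div_lt_iff₀ (by positivity)]
          linarith
  obtain ⟨R, hR1, hR2, hR3⟩ := exists_R r hr2 (qq p ^ m * (D + 1)) (by
    have h1 : qq p ≤ qq p ^ m := le_self_pow₀ hq1.le (by omega)
    have h2 : (1 : ℝ) ≤ (D : ℝ) + 1 := by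
      have : (0 : ℝ) ≤ (D : ℝ) := Nat.cast_nonneg _
      linarith
    nlinarith)
  obtain ⟨W, hW1, hW2, hW3⟩ := exists_congr p g hginj m D R (by
    refine lt_of_lt_of_le ?_ hR2
    have : 0 < qq p ^ m := by positivity
    nlinarith)
  -- the point
  have hex : ∃ x : Fin (n + 1) → k, (∀ i, x i ∈ W.image (fun w : 𝓞 k => (w : k))) ∧
      MvPolynomial.eval x (F * G) ≠ 0 := by
    by_contra hcon
    push Not at hcon
    refine mul_ne_zero hF0 hG (MvPolynomial.eq_zero_of_eval_zero_at_prod_finset (F * G)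
      (fun _ => W.image (fun w : 𝓞 k => (w : k))) (fun i => ?_) hcon)
    rw [Finset.card_image_of_injective _ RingOfIntegers.coe_injective]
    exact (MvPolynomial.degreeOf_le_totalDegree _ _).trans_lt hW1
  obtain ⟨x, hxW, hxFG⟩ := hex
  rw [map_mul] at hxFG
  have hxF : MvPolynomial.eval x F ≠ 0 := left_ne_zero_of_mul hxFG
  have hxG : MvPolynomial.eval x G ≠ 0 := right_ne_zero_of_mul hxFG
  have hxe : ∀ i, ∃ e : (Fin (Units.rank k) ⊕ (S.erase p : Finset _)) → ℕ, (∀ j, e j ≤ R) ∧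
      x i = ((∏ j, g j ^ e j : 𝓞 k) : k) := by
    intro i
    obtain ⟨w, hw, hwx⟩ := Finset.mem_image.1 (hxW i)
    obtain ⟨e, he, hwe⟩ := hW2 w hw
    exact ⟨e, he, by rw [← hwx, hwe]⟩
  have hval : ∀ (v : AbsoluteValue k ℝ), (∀ j, v (g j : k) = 1) → ∀ i, v (x i) = 1 := by
    intro v hv i
    obtain ⟨e, he, hxe⟩ := hxe i
    rw [hxe]
    have : ((∏ j, g j ^ e j : 𝓞 k) : k) = ∏ j, (g j : k) ^ e j := by
      change algebraMap (𝓞 k) k _ = _
      simp only [map_prod, map_pow]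
    rw [this, map_prod]
    refine Finset.prod_eq_one fun j _ => ?_
    rw [map_pow, hv j, one_pow]
  have hx0 : ∀ i, x i ≠ 0 := by
    intro i h
    have := hval (av p) hgp i
    rw [h, map_zero] at this
    exact zero_ne_one this
  have hxS : ∀ q, q ∉ S → ∀ i, av q (x i) = 1 := fun q hq => hval (av q) (hgq q hq)
  have hxp : ∀ i, av p (x i) = 1 := hval (av p) hgp
  have hxd : ∀ i, av p (x i - x 0) ≤ qq p ^ (-(m : ℤ)) := by
    intro i
    obtain ⟨w, hw, hwx⟩ := Finset.mem_image.1 (hxW i)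
    obtain ⟨w', hw', hwx'⟩ := Finset.mem_image.1 (hxW 0)
    rw [← hwx, ← hwx']
    have := (av_pow_iff p (w - w') m).2 (hW3 w hw w' hw')
    exact this
  have hFp : av p (MvPolynomial.eval x F) ≤ C1 * (qq p ^ (-(m : ℤ))) ^ μ :=
    hC1' x _ (by positivity) (fun i => (hxp i).le) hxd
  have hB : max B 1 ≤ Height.logHeight x := hη x hx0 (hxp 0) hxF (hFp.trans_lt hm)
  refine ⟨x, hx0, hxS, hxF, hxG, (le_max_left _ _).trans hB, ?_⟩
  have hH1 : 1 ≤ Height.logHeight x := (le_max_right _ _).trans hB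
  -- the upper bound for the height
  have hH2 : Height.logHeight x ≤ R * c := by
    rw [logHeight_units S x hx0 hxS]
    have h1 : SS S (fun v => Real.log (⨆ i, v (x i))) ≤ SS S (fun v => R * φ v) :=
      SS_le S fun v => log_sup_le v g hg0 R x hxe
    rw [SS_mul] at h1
    refine h1.trans (mul_le_mul_of_nonneg_left ?_ (Nat.cast_nonneg _))
    linarith
  have hR0 : (0 : ℝ) < R := by exact_mod_cast hR1
  have hlog : (r : ℝ) * Real.log (Height.logHeight x) ≤
      m * Real.log (qq p) + Real.log (D + 1) + r * Real.log c := by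
    have h1 : Real.log (Height.logHeight x) ≤ Real.log R + Real.log c := by
      rw [← Real.log_mul hR0.ne' (by linarith)]
      exact Real.log_le_log (by linarith) hH2
    have h2 : (r : ℝ) * Real.log R ≤ m * Real.log (qq p) + Real.log (D + 1) := by
      rw [← Real.log_pow, ← Real.log_pow, ← Real.log_mul (by positivity) (by positivity)]
      exact Real.log_le_log (by positivity) hR3.le
    have h3 := mul_le_mul_of_nonneg_left h1 (Nat.cast_nonneg (α := ℝ) r)
    linarith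
  -- the local height at `p`
  have hlam : μ * (m * Real.log (qq p)) - Real.log C1 ≤
      d * Real.log (⨆ i, av p (x i)) - Real.log (av p (MvPolynomial.eval x F)) := by
    have e1 : (⨆ i, av p (x i)) = 1 := by simp [hxp]
    rw [e1, Real.log_one, mul_zero, zero_sub]
    have h1 := Real.log_le_log ((av p).pos hxF) hFp
    rw [Real.log_mul hC1.ne' (by positivity), Real.log_pow, Real.log_zpow] at h1
    push_cast at h1
    linarith
  have hsum : d * Real.log (⨆ i, av p (x i)) - Real.log (av p (MvPolynomial.eval x F)) ≤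
      SS S (fun v => d * Real.log (⨆ i, v (x i)) - Real.log (v (MvPolynomial.eval x F))) + C2 := by
    rw [hC2, ← SS_add]
    have hnn : ∀ v : AbsoluteValue k ℝ, 0 ≤ (d * Real.log (⨆ i, v (x i)) -
        Real.log (v (MvPolynomial.eval x F))) + |Real.log (cf v)| := by
      intro v
      have hsup : 0 < ⨆ i, v (x i) := (v.pos (hx0 0)).trans_le (le_sup v x 0)
      have h1 := Real.log_le_log (v.pos hxF) (hcf v x)
      rw [Real.log_mul (hcf0 v).ne' (by positivity), Real.log_pow] at h1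
      have h2 := le_abs_self (Real.log (cf v))
      linarith
    have h1 := SS_ge S hnn hp
    have h2 := abs_nonneg (Real.log (cf (av p)))
    linarith
  have hμ0 : (0 : ℝ) ≤ μ := Nat.cast_nonneg _
  have h5 := mul_le_mul_of_nonneg_left hlog hμ0
  have e5 : (μ : ℝ) * r * Real.log (Height.logHeight x) =
      μ * (r * Real.log (Height.logHeight x)) := by ring
  rw [e5]
  linarith

end Pool.Agent.Helper892.SE
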